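import Pool.Agent.Y840.CT.LowF

/-!
# Chen's theorem for the representations `n = p + q` with `q ^ 2 - 2` almost prime (`m = 1`)
-/

set_option autoImplicit false

open Finset Filter

namespace Pool.Agent.Results.MP_4011c3_nt.ChenEveryEven

/-- `k ≥ 1` is a product of at most `t` primes, all of them larger than `y` -/
def Rough (t : ℕ) (y : ℝ) (k : ℕ) : Prop :=
  0 < k ∧ k.primeFactorsList.length ≤ t ∧ ∀ q : ℕ, q.Prime → q ∣ k → y < q

/-- the summand called `q` in the problem: the prime `x` if `s = 0`, the other summand `n - x` if `s = 1` -/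
def Q (s : Fin 2) (n x : ℤ) : ℤ := if s = 0 then x else n - x

open Classical in
/-- the primes `x ∈ (A, B]` such that `n - x` is a product of at most two primes, both `> n ^ (1/9)`, and
`q ^ 2 - 2`, where `q = x` if `s = 0` and `q = n - x` if `s = 1`, is a product of at most `2 t` primes;
all the primes here, and `x`, are `> n ^ (1/t)` -/
noncomputable def N (t n : ℕ) (s : Fin 2) (A B : ℕ) : Finset ℕ :=
  (Ioc A B).filter (fun x : ℕ => x.Prime ∧ (n : ℝ) ^ (1 / (t : ℝ)) < x ∧
    Rough 2 (max ((n : ℝ) ^ (1 / 9 : ℝ)) ((n : ℝ) ^ (1 / (t : ℝ)))) (n - x) ∧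
    Rough (2 * t) ((n : ℝ) ^ (1 / (t : ℝ))) ((if s = 0 then x else n - x) ^ 2 - 2))

/-- the number of the classes `x` modulo `p` with `x (n - x) (q ^ 2 - 2) ≡ 0` -/
def ρ (s : Fin 2) (n p : ℕ) : ℕ :=
  ((range p).filter (fun x : ℕ => (p : ℤ) ∣ (x : ℤ) * ((n : ℤ) - x) * (Q s n x ^ 2 - 2))).card

/-- the sieve product -/
noncomputable def V (s : Fin 2) (n : ℕ) : ℝ :=
  ∏ p ∈ (Icc 1 n).filter Nat.Prime, (1 - (ρ s n p : ℝ) / p)

/-- the square roots of `2` -/
def R (p : ℕ) : Finset ℕ := (range p).filter (fun x : ℕ => (p : ℤ) ∣ (x : ℤ) ^ 2 - 2)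

/-- the shifts -/
def F (s : Fin 2) (n p : ℕ) : Finset ℤ := insert (n : ℤ) ((R p).image (fun x : ℕ => Q s n x))

theorem card_R {p : ℕ} (hp : p.Prime) : (R p).card ≤ 2 := by
  rcases (R p).eq_empty_or_nonempty with h | ⟨a, ha⟩
  · rw [h]
    simp
  · have hs : R p ⊆ {a, (p - a) % p} := by
      intro x hx
      unfold R at ha hx
      rw [mem_filter, mem_range] at ha hx
      rw [mem_insert, mem_singleton]
      have h1 : (p : ℤ) ∣ ((x : ℤ) - a) * ((x : ℤ) + a) := by
        have := dvd_sub hx.2 ha.2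
        have e : (x : ℤ) ^ 2 - 2 - ((a : ℤ) ^ 2 - 2) = ((x : ℤ) - a) * ((x : ℤ) + a) := by ring
        rwa [e] at this
      rcases (Nat.prime_iff_prime_int.1 hp).dvd_or_dvd h1 with h2 | h2
      · left
        have h3 := (Int.modEq_iff_dvd.2 h2 : (a : ℤ) ≡ x [ZMOD p])
        have h4 := (Int.natCast_modEq_iff.1 h3 : a ≡ x [MOD p])
        unfold Nat.ModEq at h4
        rw [Nat.mod_eq_of_lt ha.1, Nat.mod_eq_of_lt hx.1] at h4
        exact h4.symm
      · right
        have h3 : p ∣ x + a := by exact_mod_cast h2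
        obtain ⟨c, hc⟩ := h3
        have hp0 := hp.pos
        have hc2 : c < 2 := by
          by_contra hcon
          push Not at hcon
          have := Nat.mul_le_mul_left p hcon
          omega
        interval_cases c
        · have : x = 0 := by omega
          have : a = 0 := by omega
          subst this
          simp
          omega
        · rcases Nat.eq_zero_or_pos a with h0 | h0
          · subst h0
            simp at hc
            omega
          · rw [Nat.mod_eq_of_lt (by omega)]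
            omega
    exact (card_le_card hs).trans card_le_two

theorem card_F (s : Fin 2) (n : ℕ) {p : ℕ} (hp : p.Prime) : (F s n p).card ≤ 3 := by
  unfold F
  refine (card_insert_le _ _).trans ?_
  have := (card_image_le (s := R p) (f := fun x : ℕ => Q s n x)).trans (card_R hp)
  omega

theorem Q_Q (s : Fin 2) (n x : ℤ) : Q s n (Q s n x) = x := by
  unfold Q
  split_ifs <;> ring

theorem Q_sub (s : Fin 2) (n x y : ℤ) {p : ℤ} : p ∣ Q s n x - y ↔ p ∣ Q s n y - x := by
  unfold Q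
  split_ifs
  · exact dvd_sub_comm
  · have : n - x - y = n - y - x := by ring
    rw [this]

theorem exists_root {p : ℕ} (hp : p.Prime) (y : ℤ) : (∃ a ∈ R p, (p : ℤ) ∣ y - a) ↔ (p : ℤ) ∣ y ^ 2 - 2 := by
  constructor
  · rintro ⟨a, ha, h⟩
    unfold R at ha
    rw [mem_filter] at ha
    have e : y ^ 2 - 2 = (y - a) * (y + a) + ((a : ℤ) ^ 2 - 2) := by ring
    rw [e]
    exact dvd_add (Dvd.dvd.mul_right h _) ha.2
  · intro h
    have hp0 : (0 : ℤ) < p := by exact_mod_cast hp.pos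
    refine ⟨(y % p).toNat, ?_, ?_⟩
    · unfold R
      rw [mem_filter, mem_range]
      have h1 := Int.emod_nonneg y hp0.ne'
      have h2 := Int.emod_lt_of_pos y hp0
      constructor
      · zify
        rw [Int.toNat_of_nonneg h1]
        exact h2
      · rw [Int.toNat_of_nonneg h1]
        have e : (y % p) ^ 2 - 2 = (y ^ 2 - 2) - (y - y % p) * (y + y % p) := by ring
        rw [e]
        exact dvd_sub h (Dvd.dvd.mul_right (Int.dvd_self_sub_emod) _)
    · rw [Int.toNat_of_nonneg (Int.emod_nonneg y hp0.ne')]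
      exact Int.dvd_self_sub_emod

/-- the meaning of the shifts -/
theorem mem_sh {s : Fin 2} {n p : ℕ} (hp : p.Prime) (y : ℤ) : (∃ h ∈ F s n p, (p : ℤ) ∣ h - y) ↔
    (p : ℤ) ∣ (n : ℤ) - y ∨ (p : ℤ) ∣ Q s n y ^ 2 - 2 := by
  rw [← exists_root hp]
  unfold F
  constructor
  · rintro ⟨h, hh, hd⟩
    rw [mem_insert, mem_image] at hh
    rcases hh with rfl | ⟨a, ha, rfl⟩
    · left
      exact hd
    · right
      exact ⟨a, ha, (Q_sub s n a y).1 hd⟩
  · rintro (h | ⟨a, ha, h⟩)
    · exact ⟨n, mem_insert_self _ _, h⟩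
    · exact ⟨Q s n a, mem_insert_of_mem (mem_image_of_mem _ ha), (Q_sub s n a y).2 h⟩

theorem rho_eq {s : Fin 2} {n p : ℕ} (hp : p.Prime) : Pool.Agent.Y840.CT.rho (F s n p) p = ρ s n p := by
  have hp0 : (0 : ℤ) < p := by exact_mod_cast hp.pos
  unfold Pool.Agent.Y840.CT.rho ρ
  rw [← card_map (⟨((↑) : ℕ → ℤ), Nat.cast_injective⟩ : ℕ ↪ ℤ)]
  congr 1
  ext y
  rw [mem_image, Finset.mem_map]
  constructor
  · rintro ⟨h, hh, rfl⟩
    have h1 := Int.emod_nonneg h hp0.ne'
    have h2 := Int.emod_lt_of_pos h hp0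
    refine ⟨(h % p).toNat, ?_, ?_⟩
    · rw [mem_filter, mem_range]
      refine ⟨?_, ?_⟩
      · zify
        rw [Int.toNat_of_nonneg h1]
        exact h2
      · rw [Int.toNat_of_nonneg h1]
        rw [mem_insert] at hh
        rcases hh with rfl | hh
        · simp
        · have h3 := (mem_sh hp (h % p)).1 ⟨h, hh, Int.dvd_self_sub_emod⟩
          rcases h3 with h3 | h3
          · exact Dvd.dvd.mul_right (Dvd.dvd.mul_left h3 _) _
          · exact Dvd.dvd.mul_left h3 _
    · show (((h % p).toNat : ℕ) : ℤ) = h % p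
      exact Int.toNat_of_nonneg h1
  · rintro ⟨x, hx, rfl⟩
    rw [mem_filter, mem_range] at hx
    obtain ⟨hx1, hx2⟩ := hx
    have hpp := Nat.prime_iff_prime_int.1 hp
    have hxm : (x : ℤ) % p = x := Int.emod_eq_of_lt (by positivity) (by exact_mod_cast hx1)
    have key : (∃ h ∈ F s n p, (p : ℤ) ∣ h - x) → ∃ a ∈ insert 0 (F s n p), a % (p : ℤ) = (x : ℤ) := by
      rintro ⟨h, hh, hd⟩
      refine ⟨h, mem_insert_of_mem hh, ?_⟩
      have h4 := (Int.modEq_iff_dvd.2 hd : (x : ℤ) ≡ h [ZMOD p])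
      unfold Int.ModEq at h4
      rw [← h4, hxm]
    show ∃ a ∈ insert 0 (F s n p), a % (p : ℤ) = (x : ℤ)
    rcases hpp.dvd_or_dvd hx2 with h3 | h3
    · rcases hpp.dvd_or_dvd h3 with h4 | h4
      · refine ⟨0, mem_insert_self _ _, ?_⟩
        have := Int.emod_eq_zero_of_dvd h4
        rw [hxm] at this
        rw [this]
        simp
      · exact key ((mem_sh hp _).2 (Or.inl h4))
    · exact key ((mem_sh hp _).2 (Or.inr h3))

theorem loc {s : Fin 2} {n : ℕ} (hn : Even n) {p : ℕ} (hp : p.Prime) :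
    Pool.Agent.Y840.CT.rho (F s n p) p < p := by
  rcases Nat.lt_or_ge p 5 with h5 | h5
  · have h23 : p = 2 ∨ p = 3 := by
      interval_cases p
      · exact absurd hp (by norm_num)
      · exact absurd hp (by norm_num)
      · left; rfl
      · right; rfl
      · exact absurd hp (by norm_num)
    rcases h23 with rfl | rfl
    · rw [rho_eq hp]
      obtain ⟨m, hm⟩ := hn
      unfold ρ
      have : ((range 2).filter (fun x : ℕ => ((2 : ℕ) : ℤ) ∣ (x : ℤ) * ((n : ℤ) - x) * (Q s n x ^ 2 - 2))) ⊆ {0} := by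
        intro x hx
        rw [mem_filter, mem_range] at hx
        rw [mem_singleton]
        obtain ⟨hx1, hx2⟩ := hx
        by_contra hcon
        have hx3 : x = 1 := by omega
        subst hx3
        have h1 : Odd (((1 : ℕ) : ℤ) * ((n : ℤ) - (1 : ℕ)) * (Q s n (1 : ℕ) ^ 2 - 2)) := by
          have hnz : Even (n : ℤ) := ⟨m, by exact_mod_cast hm⟩
          have ho : Odd ((n : ℤ) - (1 : ℕ)) := hnz.sub_odd (by norm_num)
          have hQ : Odd (Q s n (1 : ℕ)) := by
            unfold Q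
            split_ifs
            · norm_num
            · exact ho
          refine Odd.mul (Odd.mul (by norm_num) ho) ?_
          exact (hQ.pow).sub_even (by norm_num)
        have h2 : Even (((1 : ℕ) : ℤ) * ((n : ℤ) - (1 : ℕ)) * (Q s n (1 : ℕ) ^ 2 - 2)) := by
          rw [even_iff_two_dvd]
          exact_mod_cast hx2
        exact (Int.not_even_iff_odd.2 h1) h2
      exact lt_of_le_of_lt (card_le_card this) (by simp)
    · have hR : R 3 = ∅ := by decide
      unfold Pool.Agent.Y840.CT.rho F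
      rw [hR, image_empty]
      exact lt_of_le_of_lt (card_image_le.trans ((card_insert_le _ _).trans (Nat.add_le_add_right (card_insert_le _ _) 1)))
        (by simp)
  · unfold Pool.Agent.Y840.CT.rho
    refine lt_of_le_of_lt (card_image_le.trans ((card_insert_le _ _).trans (Nat.add_le_add_right (card_F s n hp) 1))) ?_
    omega

theorem sys {s : Fin 2} {n : ℕ} (hn : Even n) (hn0 : 0 < n) :
    Pool.Agent.Y840.CT.SysF 3 n (F s n) (n : ℤ) := by
  refine ⟨fun p hp => card_F s n hp, by exact_mod_cast hn0.ne', by rw [abs_of_nonneg (by positivity)], ?_, ?_⟩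
  · intro p _
    exact mem_insert_self _ _
  · intro p hp
    exact loc hn hp

theorem V_eq {s : Fin 2} {n : ℕ} : Pool.Agent.Y840.CT.VF (F s n) n = V s n := by
  unfold Pool.Agent.Y840.CT.VF V
  apply prod_congr rfl
  intro p hp
  rw [mem_filter] at hp
  rw [rho_eq hp.2]

theorem N_eq {t n : ℕ} (ht : 1 ≤ t) {s : Fin 2} (hn : 2 ≤ n) {A B : ℕ} (hB : B + 2 ≤ n) :
    Pool.Agent.Y840.CT.GoodF t n A B (F s n) (n : ℤ) = N t n s A B := by
  classical
  have ht0 : (0 : ℝ) < t := by exact_mod_cast ht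
  obtain ⟨y, hy⟩ : ∃ y : ℝ, y = (n : ℝ) ^ (1 / (t : ℝ)) := ⟨_, rfl⟩
  have hX1 : (1 : ℝ) < n := by exact_mod_cast hn
  have hy1 : 1 < y := by
    rw [hy]
    exact Real.one_lt_rpow hX1 (by positivity)
  have hyt : ((n : ℝ)) ^ 2 < y ^ (2 * t + 1) := by
    have h3 : y ^ t = n := by
      rw [hy, ← Real.rpow_natCast, ← Real.rpow_mul (by positivity), one_div, inv_mul_cancel₀ ht0.ne',
        Real.rpow_one]
    have h4 : y ^ (2 * t + 1) = (y ^ t) ^ 2 * y := by ring
    rw [h4, h3]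
    have : (0 : ℝ) < (n : ℝ) ^ 2 := by positivity
    nlinarith
  unfold N Pool.Agent.Y840.CT.GoodF
  rw [← hy]
  apply filter_congr
  intro x hx
  rw [mem_Ioc] at hx
  have hxn : x + 2 ≤ n := by omega
  have habs : ((n : ℤ) - (x : ℤ)).natAbs = n - x := by omega
  obtain ⟨z, hz⟩ : ∃ z : ℕ, z = if s = 0 then x else n - x := ⟨_, rfl⟩
  have hzQ : Q s n x = (z : ℤ) := by
    rw [hz]
    unfold Q
    split_ifs
    · rfl
    · omega
  rw [← hz]
  have hzn : z ≤ n := by
    rw [hz]
    split_ifs <;> omega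
  have hcx : ((n - x : ℕ) : ℤ) = (n : ℤ) - x := by
    push_cast [Nat.cast_sub (by omega : x ≤ n)]
    ring
  constructor
  · rintro ⟨h1, h2, ⟨h3a, h3b, h3c⟩, h4⟩
    rw [habs] at h3b
    have hz2 : 2 ≤ z := by
      rw [hz]
      split_ifs
      · exact h1.two_le
      · omega
    have hz4 : 4 ≤ z ^ 2 := by nlinarith
    have hcast : ((z ^ 2 - 2 : ℕ) : ℤ) = (z : ℤ) ^ 2 - 2 := by
      have : 2 ≤ z ^ 2 := by omega
      push_cast [Nat.cast_sub this]
      ring
    have hsm : ∀ q : ℕ, q.Prime → q ∣ z ^ 2 - 2 → y < q := by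
      intro q hq hd
      by_contra hcon
      push Not at hcon
      have hd' : (q : ℤ) ∣ Q s n x ^ 2 - 2 := by
        rw [hzQ, ← hcast]
        exact_mod_cast hd
      obtain ⟨h, hh, hd2⟩ := (mem_sh hq (x : ℤ)).2 (Or.inr hd')
      exact h4 q hq hcon h hh hd2
    refine ⟨h1, h2, ⟨by omega, h3b, ?_⟩, by omega, ?_, hsm⟩
    · intro q hq hd
      have hd' : (q : ℤ) ∣ (n : ℤ) - x := by
        rw [← hcx]
        exact_mod_cast hd
      apply max_lt (h3c q hq hd')
      by_contra hcon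
      push Not at hcon
      obtain ⟨h, hh, hd2⟩ := (mem_sh (s := s) hq (x : ℤ)).2 (Or.inl hd')
      exact h4 q hq hcon h hh hd2
    apply Pool.Agent.Y840.CT.length_le (by omega) hy1.le ?_ hyt hsm
    have h5 : z ^ 2 - 2 ≤ n ^ 2 := (Nat.sub_le _ _).trans (Nat.pow_le_pow_left hzn 2)
    exact_mod_cast h5
  · rintro ⟨h1, h2, ⟨h3a, h3b, h3c⟩, h4a, h4b, h4c⟩
    refine ⟨h1, h2, ⟨by omega, by rwa [habs], ?_⟩, ?_⟩
    · intro q hq hd
      rw [← hcx] at hd
      exact lt_of_le_of_lt (le_max_left _ _) (h3c q hq (by exact_mod_cast hd))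
    intro q hq hqy h hh hd
    have hcast : ((z ^ 2 - 2 : ℕ) : ℤ) = (z : ℤ) ^ 2 - 2 := by
      have : 2 ≤ z ^ 2 := by omega
      push_cast [Nat.cast_sub this]
      ring
    rcases (mem_sh hq (x : ℤ)).1 ⟨h, hh, hd⟩ with h5 | h5
    · rw [← hcx] at h5
      have h6 : q ∣ n - x := by exact_mod_cast h5
      have := lt_of_le_of_lt (le_max_right _ _) (h3c q hq h6)
      linarith
    · rw [hzQ, ← hcast] at h5
      have h6 : q ∣ z ^ 2 - 2 := by exact_mod_cast h5
      have := h4c q hq h6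
      linarith

/-- Let `t`, `c` be suitable absolute constants. For `s = 0` and `s = 1`: (1) for every `θ > 0`, every large
even `n` and all `A`, `B` with `B + 2 ≤ n`, `B - A ≥ θ n`, the set `N` has at least `c (B - A) V`
elements, and `V ≥ c / log ^ 4 n`. (2) For all `k`, `θ`, `δ` there is `D` such that moreover every subset
of `N` with at least `δ #N` elements contains a `k`-term progression with difference at most `log ^ D n`. -/
theorem result : ∃ t : ℕ, 1 ≤ t ∧ ∃ c : ℝ, 0 < c ∧ ∀ s : Fin 2,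
    (∀ θ : ℝ, 0 < θ → ∃ n₀ : ℕ, ∀ n : ℕ, n₀ ≤ n → Even n → c / Real.log n ^ 4 ≤ V s n ∧
      ∀ A B : ℕ, B + 2 ≤ n → θ * n ≤ (B : ℝ) - A → c * ((B : ℝ) - A) * V s n ≤ ((N t n s A B).card : ℝ)) ∧
    (∀ k : ℕ, ∀ θ δ : ℝ, 0 < θ → 0 < δ → ∃ D n₀ : ℕ, ∀ n : ℕ, n₀ ≤ n → Even n → ∀ A B : ℕ, B + 2 ≤ n →
      θ * n ≤ (B : ℝ) - A → ∀ S : Finset ℕ, S ⊆ N t n s A B → δ * ((N t n s A B).card : ℝ) ≤ S.card →
          ∃ a d : ℕ, 1 ≤ d ∧ (d : ℝ) ≤ Real.log n ^ D ∧ ∀ m < k, a + m * d ∈ S) := by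
  classical
  obtain ⟨t, ht, c, hc, H1, H2⟩ := Pool.Agent.Y840.CT.genF 3
  obtain ⟨c3, hc3, hV3⟩ := Pool.Agent.Y840.CT.VF_low 3
  refine ⟨t, ht, min c c3, by positivity, ?_⟩
  intro s
  refine ⟨?_, ?_⟩
  · intro θ hθ
    obtain ⟨X₀, h1⟩ := H1 θ hθ
    refine ⟨max X₀ 2, fun n hn hev => ?_⟩
    have hn2 : 2 ≤ n := (le_max_right _ _).trans hn
    have hln : 0 < Real.log n := Real.log_pos (by exact_mod_cast (by omega : 1 < n))
    have hlow : min c c3 / Real.log n ^ 4 ≤ V s n := by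
      rw [← V_eq]
      refine le_trans ?_ (hV3 n hn2 (F s n) (fun q hq => card_F s n hq) (fun q hq => loc hev hq))
      exact div_le_div_of_nonneg_right (min_le_right _ _) (by positivity)
    refine ⟨hlow, fun A B hB hAB => ?_⟩
    have h2 := h1 n ((le_max_left _ _).trans hn) (F s n) _ (sys hev (by omega)) A B (by omega) hAB
    rw [N_eq ht hn2 hB, V_eq] at h2
    refine le_trans ?_ h2
    have hV0 : 0 ≤ V s n := le_trans (by positivity) hlow
    have hBA : 0 ≤ (B : ℝ) - A := le_trans (by positivity) hAB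
    gcongr
    exact min_le_left _ _
  · intro k θ δ hθ hδ
    obtain ⟨D, X₀, h1⟩ := H2 k θ δ hθ hδ
    refine ⟨D, max X₀ 2, fun n hn hev A B hB hAB S hS1 hS2 => ?_⟩
    have hn2 : 2 ≤ n := (le_max_right _ _).trans hn
    have h2 := h1 n ((le_max_left _ _).trans hn) (F s n) _ (sys hev (by omega)) A B (by omega) hAB
    rw [N_eq ht hn2 hB] at h2
    exact h2 S hS1 hS2

end Pool.Agent.Results.MP_4011c3_nt.ChenEveryEven
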