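import Pool.Agent.Y879.GL.Three
import Pool.Agent.Y879.GL.Pattern

set_option autoImplicit false

/-!
The almost primes `p < n` such that `q = ⌊(n - p) / m⌋` and `q ^ 2 - 2` are almost primes, for EVERY
large admissible pair `(m, n)`: for each remainder `s < m` of `n - p` which is not excluded by a
congruence, the `q` such that `q`, `q ^ 2 - 2` and `p = n - s - m q` have no prime factor up to
`n ^ (1 / r)` have the expected density in every interval of length at least `n ^ θ`, and the gaps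
between them follow the exponential (Gamma) laws, uniformly in `m`, `n`, `s`.
-/

namespace Pool.Agent.Results.MP_4011c3_nt.GapLawEveryPair

open Finset Polynomial Filter

/-- the admissible pairs of the problem -/
def Admissible (m n : ℕ) : Prop :=
  1 ≤ m ∧ 2 * m + 1 < n ∧ ((m = 1 ∧ Even n) ∨ (m = 3 ∧ n % 6 ≠ 1) ∨ m = 2 ∨ 4 ≤ m)

/-- the remainders `s` of `n - p` modulo `m` which allow odd `p = n - s - m q` prime to `m` with `q`
odd -/
def Rem (m n s : ℕ) : Prop := s < m ∧ Nat.Coprime m (n - s) ∧ Odd (((n - s : ℕ) : ℤ) - m)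

/-- none of `q`, `q ^ 2 - 2`, `n - s - m q` has a prime factor `p ≤ n ^ (1 / r)` -/
def Good (m n s r q : ℕ) : Prop :=
  ∀ p : ℕ, p.Prime → (p : ℝ) ≤ (n : ℝ) ^ (1 / (r : ℝ)) →
    ¬ p ∣ q ∧ ¬ (p : ℤ) ∣ (q : ℤ) ^ 2 - 2 ∧ ¬ (p : ℤ) ∣ ((n - s : ℕ) : ℤ) - m * q

/-- the number of `q` modulo `p` with `q (q ^ 2 - 2) (n - s - m q) ≡ 0` -/
def omega (m n s p : ℕ) : ℕ :=
  ((range p).filter (fun q : ℕ =>
    (p : ℤ) ∣ (q : ℤ) * ((q : ℤ) ^ 2 - 2) * (((n - s : ℕ) : ℤ) - m * q))).card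

/-- the product of `1 - omega(p) / p` over the primes `p ≤ n ^ (1 / r)` -/
noncomputable def V (m n s r : ℕ) : ℝ :=
  ∏ p ∈ (Icc 1 ⌊(n : ℝ) ^ (1 / (r : ℝ))⌋₊).filter Nat.Prime, (1 - (omega m n s p : ℝ) / p)

open Classical in
/-- the number of good `q` in `(u, u + Y]` with fewer than `k` good numbers in `[q - T, q)` -/
noncomputable def Near (m n s r k T u Y : ℕ) : ℕ :=
  ((Ioc u (u + Y)).filter (fun q => Good m n s r q ∧
    ((Ico (q - T) q).filter (Good m n s r)).card < k)).card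

lemma Q_iff (m n s p q : ℕ) :
    Pool.Agent.W123.RU.Poly.Q (Pool.Agent.Y879.GL.s3 (n - s) m) p q ↔
      p ∣ q ∨ (p : ℤ) ∣ (q : ℤ) ^ 2 - 2 ∨ (p : ℤ) ∣ ((n - s : ℕ) : ℤ) - m * q := by
  unfold Pool.Agent.W123.RU.Poly.Q
  constructor
  · rintro ⟨i, hi⟩
    fin_cases i
    · left
      have h : (p : ℤ) ∣ (Pool.Agent.Y879.GL.s3 (n - s) m 0).eval (q : ℤ) := hi
      rw [Pool.Agent.Y879.GL.s3_eval0, Int.natCast_dvd_natCast] at h
      exact h
    · right; left
      have h : (p : ℤ) ∣ (Pool.Agent.Y879.GL.s3 (n - s) m 1).eval (q : ℤ) := hi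
      rw [Pool.Agent.Y879.GL.s3_eval1] at h
      exact h
    · right; right
      have h : (p : ℤ) ∣ (Pool.Agent.Y879.GL.s3 (n - s) m 2).eval (q : ℤ) := hi
      rw [Pool.Agent.Y879.GL.s3_eval2] at h
      exact h
  · rintro (h | h | h)
    · refine ⟨0, ?_⟩
      rw [Pool.Agent.Y879.GL.s3_eval0, Int.natCast_dvd_natCast]
      exact h
    · refine ⟨1, ?_⟩
      rw [Pool.Agent.Y879.GL.s3_eval1]
      exact h
    · refine ⟨2, ?_⟩
      rw [Pool.Agent.Y879.GL.s3_eval2]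
      exact h

lemma good_iff (m n s r q : ℕ) : Good m n s r q ↔ Pool.Agent.TH464.PO.Sf
    (Pool.Agent.W123.RU.Poly.Q (Pool.Agent.Y879.GL.s3 (n - s) m)) ⌊(n : ℝ) ^ (1 / (r : ℝ))⌋₊ q := by
  unfold Good Pool.Agent.TH464.PO.Sf
  constructor
  · intro h p hp hQ
    obtain ⟨hp1, hp2⟩ := Pool.Agent.H373R2.T7.mem_pz.1 hp
    obtain ⟨h1, h2, h3⟩ := h p hp2 ((Nat.le_floor_iff (by positivity)).1 hp1)
    rw [Q_iff] at hQ
    rcases hQ with h4 | h4 | h4
    · exact h1 h4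
    · exact h2 h4
    · exact h3 h4
  · intro h p hp hpr
    have h1 := h p (Pool.Agent.H373R2.T7.mem_pz.2 ⟨Nat.le_floor hpr, hp⟩)
    rw [Q_iff] at h1
    push Not at h1
    exact h1

open Classical in
lemma omega_eq (m n s p : ℕ) (hp : p.Prime) : omega m n s p = Pool.Agent.H373R2.T7.nuB
      (Pool.Agent.W123.RU.Poly.Q (Pool.Agent.Y879.GL.s3 (n - s) m)) p := by
  unfold omega Pool.Agent.H373R2.T7.nuB
  apply congrArg Finset.card
  ext q
  rw [mem_filter, mem_filter, Q_iff, (Nat.prime_iff_prime_int.1 hp).dvd_mul,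
    (Nat.prime_iff_prime_int.1 hp).dvd_mul, Int.natCast_dvd_natCast, or_assoc]

lemma V_eq (m n s r : ℕ) : V m n s r = Pool.Agent.W123.RP.Vq
    (Pool.Agent.W123.RU.Poly.Q (Pool.Agent.Y879.GL.s3 (n - s) m)) ⌊(n : ℝ) ^ (1 / (r : ℝ))⌋₊ := by
  unfold V Pool.Agent.W123.RP.Vq
  apply Finset.prod_congr rfl
  intro p hp
  rw [omega_eq m n s p (mem_filter.1 hp).2]

open Classical in
lemma Near_eq (m n s r k T u Y : ℕ) :
    Near m n s r k T u Y = Pool.Agent.TH464.PO.Pk (Pool.Agent.TH464.PO.Sf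
    (Pool.Agent.W123.RU.Poly.Q (Pool.Agent.Y879.GL.s3 (n - s) m)) ⌊(n : ℝ) ^ (1 / (r : ℝ))⌋₊)
      k T u Y := by
  have e : Pool.Agent.TH464.PO.Sf
      (Pool.Agent.W123.RU.Poly.Q (Pool.Agent.Y879.GL.s3 (n - s) m)) ⌊(n : ℝ) ^ (1 / (r : ℝ))⌋₊ =
      Good m n s r := funext fun q => propext (good_iff m n s r q).symm
  rw [e]
  rfl

/-- **Almost primes `p < n` with `⌊(n - p) / m⌋` and a companion value almost prime**, for every
large admissible pair. For all `θ, ε > 0`, `x₀`, `k₀` there is `r₀` such that for all `r ≥ r₀` there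
are `κ > 0`, `n₀` such that for all `n ≥ n₀` and all `m` with `(m, n)` admissible there is a
remainder `s` with `Rem m n s`, and for every such `s`: (1) for all good `q` with `m q < n - s`, put
`p = n - s - m q`; then `q = ⌊(n - p) / m⌋`, and the integers `q`, `q ^ 2 - 2`, `p` are not zero and
their product has at most `4 r` prime factors; (2) `κ / (log n) ^ 7 ≤ V ≤ 1 / (κ log n)`; (3) in
every interval `(u, u + Y]` with `Y ≥ n ^ θ`, for all `T` and all `k ≤ k₀` (and for all `k` if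
`T V ≤ x₀`), the number of good `q` with fewer than `k` good numbers in `[q - T, q)` is
`Y V (e ^ (-TV) ∑ j < k, (TV) ^ j / j! + δ)` with `|δ| ≤ ε`. -/
theorem result (θ ε x₀ : ℝ) (k₀ : ℕ) (hθ : 0 < θ) (hε : 0 < ε) :
    ∃ r₀ : ℕ, ∀ r : ℕ, r₀ ≤ r → ∃ κ : ℝ, 0 < κ ∧ ∃ n₀ : ℕ, ∀ n : ℕ, n₀ ≤ n →
      ∀ m : ℕ, Admissible m n → (∃ s, Rem m n s) ∧ ∀ s : ℕ, Rem m n s →
      (∀ q : ℕ, m * q < n - s → Good m n s r q →
        q = (n - (n - s - m * q)) / m ∧
        (q : ℤ) * ((q : ℤ) ^ 2 - 2) * ((n - s - m * q : ℕ) : ℤ) ≠ 0 ∧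
        ((q : ℤ) * ((q : ℤ) ^ 2 - 2) *
          ((n - s - m * q : ℕ) : ℤ)).natAbs.primeFactorsList.length ≤ 4 * r) ∧
      κ / Real.log n ^ 7 ≤ V m n s r ∧ V m n s r ≤ 1 / (κ * Real.log n) ∧
      ∀ u Y k T : ℕ, (n : ℝ) ^ θ ≤ Y → (k ≤ k₀ ∨ T * V m n s r ≤ x₀) →
        |(Near m n s r k T u Y : ℝ) - Y * V m n s r *
            ∑ j ∈ range k, Real.exp (-(T * V m n s r)) * (T * V m n s r) ^ j / j.factorial| ≤
          ε * (Y * V m n s r) := by
  obtain ⟨r1, h1⟩ := Pool.Agent.Y879.GL.gap_polys 3 2 1 (1 / 2) θ one_pos (by norm_num) hθ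
    k₀ x₀ ε hε
  refine ⟨max r1 2, ?_⟩
  intro r hr
  have hr2 : 2 ≤ r := (le_max_right _ _).trans hr
  obtain ⟨v, hv, hVlow⟩ := Pool.Agent.Y879.GL.V_low_log (3 * 2 + 1) r hr2
  obtain ⟨Cv, hCv, hVup⟩ := Pool.Agent.Y879.GL.V_from_sys _ Pool.Agent.Y879.GL.sysX r hr2
  have hκ : 0 < min v (1 / Cv) := by positivity
  refine ⟨min v (1 / Cv), hκ, ?_⟩
  obtain ⟨n1, hn1⟩ := eventually_atTop.1 ((h1 r ((le_max_left _ _).trans hr) Cv).and
    ((Pool.Agent.Y879.GL.level_ok r hr2).and (hVlow.and hVup)))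
  refine ⟨max n1 16, ?_⟩
  intro n hn m hadm
  obtain ⟨h2, h3', h4, h5⟩ := hn1 n ((le_max_left _ _).trans hn)
  have hn4 : 16 ≤ n := (le_max_right _ _).trans hn
  have hnr : (16 : ℝ) ≤ n := by exact_mod_cast hn4
  have hn0 : (0 : ℝ) < n := by linarith
  have hn1' : (1 : ℝ) ≤ n := by linarith
  have hlog : 0 < Real.log n := by linarith [h3'.2.2.2.2]
  obtain ⟨hm1, hmn, hadm'⟩ := hadm
  refine ⟨Pool.Agent.Y879.GL.exists_rem m n hm1 hmn hadm', ?_⟩
  rintro s ⟨hs1, hs2, hs3⟩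
  have hhalf : (n : ℝ) ^ (1 / 2 : ℝ) < ((n - s : ℕ) : ℝ) := by
    have e1 : (n : ℝ) ≤ 2 * ((n - s : ℕ) : ℝ) := by
      have : n ≤ 2 * (n - s) := by omega
      exact_mod_cast this
    have e2 : (n : ℝ) ^ (1 / 2 : ℝ) * (n : ℝ) ^ (1 / 2 : ℝ) = n := by
      rw [← Real.rpow_add hn0]
      norm_num
    have e3 : 0 < (n : ℝ) ^ (1 / 2 : ℝ) := by positivity
    have e4 : 4 ≤ (n : ℝ) ^ (1 / 2 : ℝ) := by
      by_contra hcon
      rw [not_le] at hcon
      nlinarith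
    nlinarith
  have hus : Pool.Agent.Y879.GL.US 3 2 ((n : ℝ) ^ (1 : ℝ)) ((n : ℝ) ^ (1 / 2 : ℝ))
      (Pool.Agent.Y879.GL.s3 (n - s) m) := by
    apply Pool.Agent.Y879.GL.s3_us (n - s) m _ _ hm1 hs2 hs3 _ _ _ hhalf
    · rw [Real.rpow_one]
      exact_mod_cast Nat.sub_le n s
    · rw [Real.rpow_one]
      exact_mod_cast (by omega : m ≤ n)
    · rw [Real.rpow_one]
      linarith
  have hQ : ∀ p x : ℕ, p.Prime → Pool.Agent.W123.RU.Poly.Q (fun _ : Fin 1 => (X : ℤ[X])) p x →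
      Pool.Agent.W123.RU.Poly.Q (Pool.Agent.Y879.GL.s3 (n - s) m) p x := by
    rintro p x _ ⟨_, hi⟩
    rw [Q_iff]
    left
    rw [eval_X, Int.natCast_dvd_natCast] at hi
    exact hi
  have hVup' := (h5 _ hQ).2
  rw [V_eq]
  refine ⟨?_, ?_, ?_, ?_⟩
  · intro q hq hgood
    have hz3 : (3 : ℝ) ≤ (n : ℝ) ^ (1 / (r : ℝ)) := by
      have h4 : ((3 : ℕ) : ℝ) ≤ (n : ℝ) ^ (1 / (r : ℝ)) :=
        (Nat.le_floor_iff (by positivity)).1 h3'.1
      exact_mod_cast h4
    obtain ⟨g1, g2, g3⟩ := hgood 2 Nat.prime_two (by push_cast; linarith)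
    have hcast : ((n - s - m * q : ℕ) : ℤ) = ((n - s : ℕ) : ℤ) - m * q := by
      rw [Nat.cast_sub hq.le]
      push_cast
      ring
    have hfl : q = (n - (n - s - m * q)) / m := by
      have e : n - (n - s - m * q) = s + m * q := by omega
      rw [e, Nat.add_mul_div_left _ _ (by omega), Nat.div_eq_of_lt hs1, zero_add]
    have hne : (q : ℤ) * ((q : ℤ) ^ 2 - 2) * ((n - s - m * q : ℕ) : ℤ) ≠ 0 := by
      apply mul_ne_zero (mul_ne_zero _ _)
      · rw [hcast]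
        intro h0
        exact g3 (by rw [h0]; exact dvd_zero _)
      · intro h0
        exact g1 (by
          have : q = 0 := by exact_mod_cast h0
          rw [this]
          exact dvd_zero _)
      · intro h0
        exact g2 (by rw [h0]; exact dvd_zero _)
    refine ⟨hfl, hne, ?_⟩
    have hqn : (q : ℝ) ≤ n := by
      have : q ≤ m * q := Nat.le_mul_of_pos_left q (by omega)
      exact_mod_cast (by omega : q ≤ n)
    have hq0 : (0 : ℝ) ≤ q := Nat.cast_nonneg _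
    have hval : ((((q : ℤ) * ((q : ℤ) ^ 2 - 2) * ((n - s - m * q : ℕ) : ℤ)).natAbs : ℕ) : ℝ) ≤
        ((n : ℝ) ^ (1 / (r : ℝ))) ^ (4 * r) := by
      rw [Nat.cast_natAbs, Int.cast_abs, Int.cast_mul, Int.cast_mul, abs_mul, abs_mul]
      have hrne : (r : ℝ) ≠ 0 := by
        have : (2 : ℝ) ≤ r := by exact_mod_cast hr2
        linarith
      have h7 : ((n : ℝ) ^ (1 / (r : ℝ))) ^ (4 * r) = (n : ℝ) ^ 4 := by
        rw [← Real.rpow_natCast ((n : ℝ) ^ (1 / (r : ℝ))), ← Real.rpow_mul hn0.le,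
          ← Real.rpow_natCast]
        congr 1
        push_cast
        field_simp
      rw [h7]
      have f1 : |(((q : ℤ)) : ℝ)| ≤ n := by
        rw [abs_of_nonneg (by exact_mod_cast Nat.zero_le q)]
        exact_mod_cast hqn
      have f2 : |(((q : ℤ) ^ 2 - 2 : ℤ) : ℝ)| ≤ n * n := by
        push_cast
        rw [abs_le]
        constructor
        · nlinarith
        · nlinarith
      have f3 : |((((n - s - m * q : ℕ) : ℤ)) : ℝ)| ≤ n := by
        rw [abs_of_nonneg (by exact_mod_cast Nat.zero_le _)]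
        exact_mod_cast (by omega : n - s - m * q ≤ n)
      calc _ ≤ (n : ℝ) * (n * n) * n :=
            mul_le_mul (mul_le_mul f1 f2 (abs_nonneg _) hn0.le) f3 (abs_nonneg _) (by positivity)
        _ = (n : ℝ) ^ 4 := by ring
    refine Pool.Agent.Y879.GL.few_of_rough ((n : ℝ) ^ (1 / (r : ℝ))) (by linarith) _ (4 * r)
      (Int.natAbs_ne_zero.2 hne) hval ?_
    intro p hp hpd
    by_contra hcon
    rw [not_lt] at hcon
    obtain ⟨e1, e2, e3⟩ := hgood p hp hcon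
    have hpi := Nat.prime_iff_prime_int.1 hp
    rcases hpi.dvd_or_dvd (Int.natCast_dvd.2 hpd) with h | h
    · rcases hpi.dvd_or_dvd h with h | h
      · exact e1 (by exact_mod_cast h)
      · exact e2 h
    · rw [hcast] at h
      exact e3 h
  · refine le_trans ?_ (h4 _ (Pool.Agent.Y879.GL.us_perB hus) (Pool.Agent.Y879.GL.us_adm hus))
    exact div_le_div_of_nonneg_right (min_le_left _ _) (by positivity)
  · refine hVup'.trans ?_
    rw [div_le_div_iff₀ hlog (by positivity), one_mul]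
    have h6 : Cv * min v (1 / Cv) ≤ 1 := by
      calc Cv * min v (1 / Cv) ≤ Cv * (1 / Cv) := mul_le_mul_of_nonneg_left (min_le_right _ _) hCv.le
        _ = 1 := by field_simp
    calc Cv * (min v (1 / Cv) * Real.log n) = (Cv * min v (1 / Cv)) * Real.log n := by ring
      _ ≤ 1 * Real.log n := mul_le_mul_of_nonneg_right h6 hlog.le
      _ = Real.log n := one_mul _
  · intro u Y k T hY hT
    rw [Near_eq]
    exact h2 _ hus hVup' u Y hY k T hT

end Pool.Agent.Results.MP_4011c3_nt.GapLawEveryPair
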