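import Pool.Agent.Y879.PR.VBase
import Pool.Agent.Y879.GL.Three
import Pool.Agent.Y879.GL.Pattern

set_option autoImplicit false

/-!
The ACTUAL primes `q = ⌊(n - p) / m⌋` with `q ^ 2 - 2` and `p = n - s - m q` almost prime, for EVERY large
admissible pair `(m, n)` with `m ≤ n ^ (1 - θ)`: their number, and the Poisson law of the almost prime
solutions which follow them.
-/

namespace Pool.Agent.Results.MP_4011c3_nt.PrimeQEveryPair

open Finset Filter
open Pool.Agent.Y879.AP Pool.Agent.Y879.GL Pool.Agent.Y879.PR Pool.Agent.W123.RP Pool.Agent.H373R2.T7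
open Pool.Agent.TH464.PO Pool.Agent.TH464.PW Pool.Agent.W123.RU.Poly

/-- the admissible pairs of the problem -/
def Admissible (m n : ℕ) : Prop :=
  1 ≤ m ∧ 2 * m + 1 < n ∧ ((m = 1 ∧ Even n) ∨ (m = 3 ∧ n % 6 ≠ 1) ∨ m = 2 ∨ 4 ≤ m)

/-- the remainders `s` of `n - p` modulo `m` which allow odd `p = n - s - m q` prime to `m` with `q` odd -/
def Rem (m n s : ℕ) : Prop := s < m ∧ Nat.Coprime m (n - s) ∧ Odd (((n - s : ℕ) : ℤ) - m)

/-- none of `q`, `q ^ 2 - 2`, `n - s - m q` has a prime factor `p ≤ n ^ (1 / r)` -/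
def Good (m n s r q : ℕ) : Prop :=
  ∀ p : ℕ, p.Prime → (p : ℝ) ≤ (n : ℝ) ^ (1 / (r : ℝ)) →
    ¬ p ∣ q ∧ ¬ (p : ℤ) ∣ (q : ℤ) ^ 2 - 2 ∧ ¬ (p : ℤ) ∣ ((n - s : ℕ) : ℤ) - m * q

/-- the number of `q` modulo `p` with `p ∣ q`, `p ∣ q ^ 2 - 2` or `p ∣ n - s - m q` -/
def nu (m n s p : ℕ) : ℕ :=
  ((range p).filter (fun q : ℕ => p ∣ q ∨ (p : ℤ) ∣ (q : ℤ) ^ 2 - 2 ∨
    (p : ℤ) ∣ ((n - s : ℕ) : ℤ) - m * q)).card

/-- the product of `1 - nu(p) / p` over the primes `p ≤ n ^ (1 / r)` -/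
noncomputable def V (m n s r : ℕ) : ℝ :=
  ∏ p ∈ (Icc 1 ⌊(n : ℝ) ^ (1 / (r : ℝ))⌋₊).filter Nat.Prime, (1 - (nu m n s p : ℝ) / p)

/-- the product of `(1 - nu(p) / p) / (1 - 1 / p)` over the primes `p ≤ n ^ (1 / r)` -/
noncomputable def W (m n s r : ℕ) : ℝ :=
  ∏ p ∈ (Icc 1 ⌊(n : ℝ) ^ (1 / (r : ℝ))⌋₊).filter Nat.Prime, (1 - (nu m n s p : ℝ) / p) / (1 - 1 / (p : ℝ))

open Classical in
/-- the good PRIMES in `(u, u + Y]` -/
noncomputable def Pr (m n s r u Y : ℕ) : Finset ℕ :=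
  (Ioc u (u + Y)).filter (fun q => q.Prime ∧ Good m n s r q)

open Classical in
/-- the number of the good numbers in `(q, q + T]` -/
noncomputable def Next (m n s r T q : ℕ) : ℕ := ((Ioc q (q + T)).filter (Good m n s r)).card

/-- the Poisson weight of the set `B` -/
noncomputable def Poi (x : ℝ) (B : Finset ℕ) : ℝ := ∑ j ∈ B, Real.exp (-x) * x ^ j / j.factorial

lemma Q_iff (m n s p q : ℕ) : Q (s3 (n - s) m) p q ↔
      p ∣ q ∨ (p : ℤ) ∣ (q : ℤ) ^ 2 - 2 ∨ (p : ℤ) ∣ ((n - s : ℕ) : ℤ) - m * q := by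
  unfold Q
  constructor
  · rintro ⟨i, hi⟩
    fin_cases i
    · left
      have h : (p : ℤ) ∣ (s3 (n - s) m 0).eval (q : ℤ) := hi
      rw [s3_eval0, Int.natCast_dvd_natCast] at h
      exact h
    · right; left
      have h : (p : ℤ) ∣ (s3 (n - s) m 1).eval (q : ℤ) := hi
      rw [s3_eval1] at h
      exact h
    · right; right
      have h : (p : ℤ) ∣ (s3 (n - s) m 2).eval (q : ℤ) := hi
      rw [s3_eval2] at h
      exact h
  · rintro (h | h | h)
    · refine ⟨0, ?_⟩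
      rw [s3_eval0, Int.natCast_dvd_natCast]
      exact h
    · refine ⟨1, ?_⟩
      rw [s3_eval1]
      exact h
    · refine ⟨2, ?_⟩
      rw [s3_eval2]
      exact h

lemma good_iff (m n s r q : ℕ) : Good m n s r q ↔
    Sf (Q (s3 (n - s) m)) ⌊(n : ℝ) ^ (1 / (r : ℝ))⌋₊ q := by
  unfold Good Sf
  constructor
  · intro h p hp hQ
    obtain ⟨hp1, hp2⟩ := mem_pz.1 hp
    obtain ⟨h1, h2, h3⟩ := h p hp2 ((Nat.le_floor_iff (by positivity)).1 hp1)
    rw [Q_iff] at hQ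
    rcases hQ with h4 | h4 | h4
    · exact h1 h4
    · exact h2 h4
    · exact h3 h4
  · intro h p hp hpr
    have h1 := h p (mem_pz.2 ⟨Nat.le_floor hpr, hp⟩)
    rw [Q_iff] at h1
    push Not at h1
    exact h1

lemma nu_eq (m n s p : ℕ) : nuB (Q (s3 (n - s) m)) p = nu m n s p := by
  classical
  unfold nu nuB
  exact card_iff _ _ (fun r _ => Q_iff m n s p r)

lemma V_eq (m n s r : ℕ) : V m n s r = Vq (Q (s3 (n - s) m)) ⌊(n : ℝ) ^ (1 / (r : ℝ))⌋₊ := by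
  unfold V Vq
  apply Finset.prod_congr rfl
  intro p hp
  rw [nu_eq]

lemma W_eq (m n s r : ℕ) : W m n s r = V m n s r / Vz ⌊(n : ℝ) ^ (1 / (r : ℝ))⌋₊ := by
  unfold W V Vz
  rw [Finset.prod_div_distrib]
  rfl

lemma pr_eq (m n s r u Y : ℕ) : Pr m n s r u Y =
    Om 1 0 (Q (s3 (n - s) m)) ⌊(n : ℝ) ^ (1 / (r : ℝ))⌋₊ u Y := by
  unfold Pr Om
  ext n
  simp only [Finset.mem_filter, good_iff, one_mul, add_zero]

lemma goodf (m n s r : ℕ) : Good m n s r = Sf (Q (s3 (n - s) m)) ⌊(n : ℝ) ^ (1 / (r : ℝ))⌋₊ :=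
  funext fun q => propext (good_iff m n s r q)

/-- **Primes `q = ⌊(n - p) / m⌋` with `p` and `q ^ 2 - 2` almost prime**, for every large admissible pair
with `m ≤ n ^ (1 - θ)`. For all `θ > 0`, `0 < δ ≤ 1`, `0 < ε ≤ 1` and `x₀` there is `r₀` such that for
every `r ≥ r₀`, EVERY large `n` and EVERY `m` with `(m, n)` admissible there is a remainder `s` with
`Rem m n s`, and for every such `s`:

(1) for all good `q ≥ 2` with `m q < n - s`, put `p = n - s - m q`; then `q = ⌊(n - p) / m⌋`, and `p` has at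
most `r` and `q ^ 2 - 2` at most `2 r` prime factors;

(2) if `X ≥ n ^ θ`, `u, Y ≥ δ X` and `u + Y ≤ X`, the number of the good PRIMES `q` in `(u, u + Y]` is
`(1 + η) Y W / log X`, `|η| ≤ ε`, and at these `q` the number of the good numbers in `(q, q + T]` has the
Poisson law of mean `T V`, up to `ε`, for all `T` with `T V ≤ x₀`;

(3) in particular, if `m ≤ n ^ (1 - θ)` and `Y = ⌊(n - s) / (2 m)⌋`, the number of the good PRIMES `q` in
`(Y, 2 Y]`, all of which satisfy `m q ≤ n - s`, is `(1 + η) Y W / log (2 Y)` with `|η| ≤ ε`. -/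
theorem result (θ δ x₀ ε : ℝ) (hθ : 0 < θ) (hδ : 0 < δ) (hδ1 : δ ≤ 1) (hε : 0 < ε) (hε1 : ε ≤ 1) :
    ∃ r₀ : ℕ, ∀ r : ℕ, r₀ ≤ r → ∃ n₀ : ℕ, ∀ n : ℕ, n₀ ≤ n →
      ∀ m : ℕ, Admissible m n → (∃ s, Rem m n s) ∧ ∀ s : ℕ, Rem m n s →
      (∀ q : ℕ, 2 ≤ q → m * q < n - s → Good m n s r q →
        q = (n - (n - s - m * q)) / m ∧
        (n - s - m * q).primeFactorsList.length ≤ r ∧ (q ^ 2 - 2).primeFactorsList.length ≤ 2 * r) ∧
      (0 < W m n s r ∧ ∀ X u Y : ℕ, (n : ℝ) ^ θ ≤ X → δ * X ≤ u → δ * X ≤ Y → u + Y ≤ X →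
        |((Pr m n s r u Y).card : ℝ) * Real.log X - Y * W m n s r| ≤ ε * (Y * W m n s r) ∧
        ∀ T : ℕ, T * V m n s r ≤ x₀ → ∀ B : Finset ℕ,
          |(((Pr m n s r u Y).filter (fun q => Next m n s r T q ∈ B)).card : ℝ) -
            (Pr m n s r u Y).card * Poi (T * V m n s r) B| ≤ ε * (Pr m n s r u Y).card) ∧
      ((m : ℝ) ≤ (n : ℝ) ^ (1 - θ) → ∀ Y : ℕ, Y = (n - s) / (2 * m) →
        |((Pr m n s r Y Y).card : ℝ) * Real.log (2 * Y) - Y * W m n s r| ≤ ε * (Y * W m n s r)) := by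
  obtain ⟨r1, hr12, h1⟩ := prime_polys 1 3 2 squarefree_one 1 (1 / 2) (θ / 2) (min δ (1 / 2)) (by norm_num)
    (by norm_num) (by positivity) (by positivity) ((min_le_left _ _).trans hδ1) x₀ ε hε hε1
  refine ⟨max r1 2, ?_⟩
  intro r hr
  have hr2 : 2 ≤ r := (le_max_right _ _).trans hr
  obtain ⟨C, hC, hV⟩ := V_up_base 1 (by norm_num) r hr2
  have hz : ∀ᶠ K : ℕ in atTop, (8 : ℝ) ≤ (K : ℝ) ^ (θ / 2) :=
    ((tendsto_rpow_atTop (by positivity)).comp tendsto_natCast_atTop_atTop).eventually_ge_atTop _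
  obtain ⟨n1, hn1⟩ := eventually_atTop.1 ((h1 r ((le_max_left _ _).trans hr) C).and
    ((Pool.Agent.Y879.GL.level_ok r hr2).and (hV.and hz)))
  refine ⟨max n1 16, ?_⟩
  intro n hn m hadm
  obtain ⟨h2, h3', h4, h5⟩ := hn1 n ((le_max_left _ _).trans hn)
  have hn4 : 16 ≤ n := (le_max_right _ _).trans hn
  have hnr : (16 : ℝ) ≤ n := by exact_mod_cast hn4
  have hn0 : (0 : ℝ) < n := by linarith
  have hn1' : (1 : ℝ) ≤ n := by linarith
  obtain ⟨hm1, hmn, hadm'⟩ := hadm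
  refine ⟨Pool.Agent.Y879.GL.exists_rem m n hm1 hmn hadm', ?_⟩
  rintro s ⟨hs1, hs2, hs3⟩
  have hhalf : (n : ℝ) ^ (1 / 2 : ℝ) < ((n - s : ℕ) : ℝ) := by
    have e1 : (n : ℝ) ≤ 2 * ((n - s : ℕ) : ℝ) := by
      have : n ≤ 2 * (n - s) := by omega
      exact_mod_cast this
    have e2 : (n : ℝ) ^ (1 / 2 : ℝ) * (n : ℝ) ^ (1 / 2 : ℝ) = n := by
      rw [← Real.rpow_add hn0]
      norm_num
    have e3 : 0 < (n : ℝ) ^ (1 / 2 : ℝ) := by positivity
    have e4 : 4 ≤ (n : ℝ) ^ (1 / 2 : ℝ) := by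
      by_contra hcon
      rw [not_le] at hcon
      nlinarith
    nlinarith
  have hus : US 3 2 ((n : ℝ) ^ (1 : ℝ)) ((n : ℝ) ^ (1 / 2 : ℝ)) (s3 (n - s) m) := by
    apply s3_us (n - s) m _ _ hm1 hs2 hs3 _ _ _ hhalf
    · rw [Real.rpow_one]
      exact_mod_cast Nat.sub_le n s
    · rw [Real.rpow_one]
      exact_mod_cast (by omega : m ≤ n)
    · rw [Real.rpow_one]
      linarith
  have hVn : Vq (Q (s3 (n - s) m)) ⌊(n : ℝ) ^ (1 / (r : ℝ))⌋₊ ≤ C / Real.log n := by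
    apply h4
    intro p hp _
    refine nuB_pos_of _ p hp 0 (fun k => per (s3 (n - s) m) p k) ?_
    rw [Q_iff]
    exact Or.inl (dvd_zero _)
  have hW0 : 0 < W m n s r := by
    rw [W_eq]
    refine div_pos ?_ (Pool.Agent.Y879.PR.Vz_pos _)
    unfold V
    apply Finset.prod_pos
    intro p hp
    have hpp := (Finset.mem_filter.1 hp).2
    have hlt := us_adm hus p hpp
    rw [nu_eq m n s p] at hlt
    have h5 : (nu m n s p : ℝ) < p := by exact_mod_cast hlt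
    have h6 : (0 : ℝ) < p := by exact_mod_cast hpp.pos
    rw [sub_pos, div_lt_one h6]
    exact h5
  have hall : ∀ X u Y : ℕ, (n : ℝ) ^ (θ / 2) ≤ X → min δ (1 / 2) * X ≤ u → min δ (1 / 2) * X ≤ Y →
      u + Y ≤ X →
        |((Pr m n s r u Y).card : ℝ) * Real.log X - Y * W m n s r| ≤ ε * (Y * W m n s r) ∧
        ∀ T : ℕ, T * V m n s r ≤ x₀ → ∀ B : Finset ℕ,
          |(((Pr m n s r u Y).filter (fun q => Next m n s r T q ∈ B)).card : ℝ) -
            (Pr m n s r u Y).card * Poi (T * V m n s r) B| ≤ ε * (Pr m n s r u Y).card := by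
    intro X u Y hX hu hY huY
    have h6 := h2 (s3 (n - s) m) 0 hus (by norm_num)
      (fun p n hp hp1 => absurd (Nat.dvd_one.1 hp1) hp.one_lt.ne')
      ⟨0, fun k => by
        rw [s3_eval0]
        simp⟩ hVn X hX (Nat.zero_le _) u Y hu hY huY
    rw [← pr_eq, ← V_eq, ← W_eq] at h6
    refine ⟨h6.1, ?_⟩
    intro T hT B
    have h7 := h6.2 T hT B
    rw [← goodf] at h7
    exact h7
  refine ⟨?_, ⟨hW0, ?_⟩, ?_⟩
  · intro q hq2 hq hgood
    have hz3 : (3 : ℝ) ≤ (n : ℝ) ^ (1 / (r : ℝ)) := by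
      have h4 : ((3 : ℕ) : ℝ) ≤ (n : ℝ) ^ (1 / (r : ℝ)) :=
        (Nat.le_floor_iff (by positivity)).1 h3'.1
      exact_mod_cast h4
    have hrr : (2 : ℝ) ≤ r := by exact_mod_cast hr2
    have hpow : ((n : ℝ) ^ (1 / (r : ℝ))) ^ r = n := by
      rw [← Real.rpow_natCast, ← Real.rpow_mul hn0.le, one_div, inv_mul_cancel₀ (by linarith),
        Real.rpow_one]
    have hqq : 4 ≤ q ^ 2 := by nlinarith
    have hcast : ((n - s - m * q : ℕ) : ℤ) = ((n - s : ℕ) : ℤ) - m * q := by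
      rw [Nat.cast_sub hq.le]
      push_cast
      ring
    have hfl : q = (n - (n - s - m * q)) / m := by
      have e : n - (n - s - m * q) = s + m * q := by omega
      rw [e, Nat.add_mul_div_left _ _ (by omega), Nat.div_eq_of_lt hs1, zero_add]
    have hqn : q ≤ n := by
      have : q ≤ m * q := Nat.le_mul_of_pos_left q (by omega)
      omega
    refine ⟨hfl, ?_, ?_⟩
    · refine few_of_rough ((n : ℝ) ^ (1 / (r : ℝ))) (by linarith) _ r (by omega) ?_ ?_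
      · rw [hpow]
        exact_mod_cast (by omega : n - s - m * q ≤ n)
      · intro p hp hpn
        by_contra hcon
        rw [not_lt] at hcon
        apply (hgood p hp hcon).2.2
        rw [← hcast]
        exact_mod_cast hpn
    · refine few_of_rough ((n : ℝ) ^ (1 / (r : ℝ))) (by linarith) _ (2 * r) (by omega) ?_ ?_
      · rw [mul_comm 2 r, pow_mul, hpow]
        have h6 : q ^ 2 - 2 ≤ n ^ 2 := (Nat.sub_le _ _).trans (Nat.pow_le_pow_left hqn 2)
        exact_mod_cast h6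
      · intro p hp hpn
        by_contra hcon
        rw [not_lt] at hcon
        apply (hgood p hp hcon).2.1
        have h6 := Int.natCast_dvd_natCast.2 hpn
        rw [Nat.cast_sub (by omega)] at h6
        push_cast at h6
        exact h6
  · intro X u Y hX hu hY huY
    have hX0 : (0 : ℝ) ≤ X := Nat.cast_nonneg _
    refine hall X u Y ?_ ?_ ?_ huY
    · exact (Real.rpow_le_rpow_of_exponent_le hn1' (by linarith)).trans hX
    · exact (mul_le_mul_of_nonneg_right (min_le_left _ _) hX0).trans hu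
    · exact (mul_le_mul_of_nonneg_right (min_le_left _ _) hX0).trans hY
  · intro hmn' Y hY
    have hm1r : (1 : ℝ) ≤ m := by exact_mod_cast hm1
    have hX : (n : ℝ) ^ (θ / 2) ≤ ((2 * Y : ℕ) : ℝ) := by
      have e1 : (n : ℝ) ≤ 2 * ((n - s : ℕ) : ℝ) := by
        have : n ≤ 2 * (n - s) := by omega
        exact_mod_cast this
      have e2 : ((n - s : ℕ) : ℝ) < 2 * m * (Y + 1) := by
        have : n - s < 2 * m * (Y + 1) := by
          rw [hY]
          exact Nat.lt_mul_div_succ _ (by omega)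
        exact_mod_cast this
      have e3 : (n : ℝ) ^ (1 - θ) * (n : ℝ) ^ θ = n := by
        rw [← Real.rpow_add hn0, sub_add_cancel, Real.rpow_one]
      have e4 : (n : ℝ) ^ θ = (n : ℝ) ^ (θ / 2) * (n : ℝ) ^ (θ / 2) := by
        rw [← Real.rpow_add hn0]
        congr 1
        ring
      have e5 : 0 < (n : ℝ) ^ (1 - θ) := Real.rpow_pos_of_pos hn0 _
      have e6 : (m : ℝ) * (n : ℝ) ^ θ ≤ n := by
        calc (m : ℝ) * (n : ℝ) ^ θ ≤ (n : ℝ) ^ (1 - θ) * (n : ℝ) ^ θ :=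
              mul_le_mul_of_nonneg_right hmn' (Real.rpow_nonneg hn0.le _)
          _ = n := e3
      have e7 : (m : ℝ) * (n : ℝ) ^ θ < m * (4 * (Y + 1)) := by nlinarith
      have e8 : (n : ℝ) ^ θ < 4 * (Y + 1) := lt_of_mul_lt_mul_left e7 (by linarith)
      push_cast
      nlinarith
    have h6 := (hall (2 * Y) Y Y hX ?_ ?_ (by omega)).1
    · push_cast at h6
      exact h6
    · push_cast
      have : min δ (1 / 2) ≤ 1 / 2 := min_le_right _ _
      have hY0 : (0 : ℝ) ≤ Y := Nat.cast_nonneg _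
      nlinarith
    · push_cast
      have : min δ (1 / 2) ≤ 1 / 2 := min_le_right _ _
      have hY0 : (0 : ℝ) ≤ Y := Nat.cast_nonneg _
      nlinarith

end Pool.Agent.Results.MP_4011c3_nt.PrimeQEveryPair
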