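import Pool.Agent.Y816.PD.UniL

set_option autoImplicit false

/-!
# `n = p + m q + t`, `0 ≤ t < m`, with `p`, `q`, `q ^ 2 - 2` almost primes and restricted digits of `q`

The integers `q < b ^ K` whose `i`-th digit in base `b` belongs to an arbitrary set `A i` (for all `i < K`) are
considered, the product of the `|A i|` being at least `exp (- c K) b ^ K`. Everything is uniform in `m`, `n`, `t`.
-/

namespace Pool.Agent.Results.MP_4011c3_nt.RestrictedDigits

open Finset Filter Polynomial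
open Pool.Agent.Y816.PD (ND NA Alm Rgh WG)

/-- The product `q (q ^ 2 - 2) (n - m q - t)`; for `0 ≤ t < m` and `p = n - m q - t` one has `q = ⌊(n - p) / m⌋`. -/
def G (m n t q : ℕ) : ℤ := (q : ℤ) * ((q : ℤ) ^ 2 - 2) * ((n : ℤ) - m * q - t)

/-- there is no fixed prime divisor -/
def Adm (m n t : ℕ) : Prop := ∀ l : ℕ, l.Prime → ∃ q : ℕ, ¬ (l : ℤ) ∣ G m n t q

lemma adm_of {m n t : ℕ} (hm : m = 1 ∨ m = 2) (hodd : Odd (n + m + t)) : Adm m n t := by
  intro p hp
  have hpz := Nat.prime_iff_prime_int.1 hp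
  obtain ⟨M, hM⟩ := hodd
  have hMz : (n : ℤ) + m + t = 2 * M + 1 := by exact_mod_cast hM
  have key : ∀ q : ℕ, (p : ℤ) ∣ G m n t q → (p : ℤ) ∣ (q : ℤ) ∨ (p : ℤ) ∣ (q : ℤ) ^ 2 - 2 ∨
      (p : ℤ) ∣ (n : ℤ) - m * q - t := by
    intro q h
    unfold G at h
    rcases hpz.dvd_or_dvd h with h | h
    · rcases hpz.dvd_or_dvd h with h | h
      · exact Or.inl h
      · exact Or.inr (Or.inl h)
    · exact Or.inr (Or.inr h)
  rcases Nat.lt_or_ge p 5 with h5 | h5
  · have hp2 : p = 2 ∨ p = 3 := by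
      have := hp.two_le
      have h4 : p ≠ 4 := by rintro rfl; norm_num at hp
      omega
    rcases hp2 with rfl | rfl
    · refine ⟨1, fun h => ?_⟩
      rcases key 1 h with ⟨s, hs⟩ | ⟨s, hs⟩ | ⟨s, hs⟩
      · push_cast at hs
        omega
      · push_cast at hs
        omega
      · push_cast at hs
        omega
    · by_cases h1 : (3 : ℤ) ∣ (n : ℤ) - m - t
      · refine ⟨2, fun h => ?_⟩
        obtain ⟨u, hu⟩ := h1
        rcases key 2 h with ⟨s, hs⟩ | ⟨s, hs⟩ | ⟨s, hs⟩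
        · push_cast at hs
          omega
        · push_cast at hs
          omega
        · push_cast at hs
          rcases hm with rfl | rfl
          · push_cast at hs hu
            omega
          · push_cast at hs hu
            omega
      · refine ⟨1, fun h => ?_⟩
        rcases key 1 h with ⟨s, hs⟩ | ⟨s, hs⟩ | ⟨s, hs⟩
        · push_cast at hs
          omega
        · push_cast at hs
          omega
        · push_cast at hs
          exact h1 ⟨s, by linarith⟩
  · have hm0 : (m : ℤ) ≠ 0 := by rcases hm with rfl | rfl <;> norm_num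
    have hmon : (X ^ 2 - C 2 : ℤ[X]).Monic := monic_X_pow_sub_C 2 (by norm_num)
    have hlin : (C (m : ℤ) * X + C ((t : ℤ) - n) : ℤ[X]) ≠ 0 := by
      intro h0
      have := leadingCoeff_linear (b := (t : ℤ) - n) hm0
      rw [h0, leadingCoeff_zero] at this
      exact hm0 this.symm
    have hPd : (X * (X ^ 2 - C 2) * (C (m : ℤ) * X + C ((t : ℤ) - n)) : ℤ[X]).natDegree = 4 := by
      rw [natDegree_mul (mul_ne_zero X_ne_zero hmon.ne_zero) hlin, natDegree_mul X_ne_zero hmon.ne_zero,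
        natDegree_X, natDegree_X_pow_sub_C, natDegree_linear hm0]
    obtain ⟨q, hq⟩ := Pool.Agent.Y816.PD.adm_deg hp
      (X * (X ^ 2 - C 2) * (C (m : ℤ) * X + C ((t : ℤ) - n))) (by
        have hl : (X * (X ^ 2 - C 2) * (C (m : ℤ) * X + C ((t : ℤ) - n)) : ℤ[X]).leadingCoeff = m := by
          rw [leadingCoeff_mul, leadingCoeff_mul, leadingCoeff_X, hmon.leadingCoeff, leadingCoeff_linear hm0]
          ring
        rw [hl]
        intro h
        have h6 := Nat.le_of_dvd (by rcases hm with rfl | rfl <;> norm_num) (Int.natCast_dvd_natCast.1 h)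
        rcases hm with rfl | rfl <;> omega) (by
        rw [hPd]
        omega)
    refine ⟨q, ?_⟩
    have : G m n t q = -(X * (X ^ 2 - C 2) * (C (m : ℤ) * X + C ((t : ℤ) - n)) : ℤ[X]).eval (q : ℤ) := by
      unfold G
      simp only [eval_mul, eval_add, eval_sub, eval_pow, eval_X, eval_C]
      ring
    rw [this, dvd_neg]
    exact hq

/-- **Almost primes `p`, `q = ⌊(n - p) / m⌋`, `q ^ 2 - 2` with restricted digits of `q`.** -/
theorem result (D : ℕ) :
    (∀ m n : ℕ, (m = 1 ∧ Even n) ∨ m = 2 → ∃ t < m, Adm m n t) ∧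
    ∃ c : ℝ, 0 < c ∧ ∃ r₀ : ℕ, 2 ≤ r₀ ∧ ∀ r : ℕ, r₀ ≤ r →
      ∀ b : ℕ, 2 ≤ b → ∃ κ C : ℝ, 0 < κ ∧ 0 < C ∧ ∀ᶠ K : ℕ in atTop, ∀ m n t : ℕ, 1 ≤ m → t < m →
        Adm m n t → (m + 1) * b ^ K + t ≤ n → n ≤ b ^ (D * K) →
        ∀ A : ℕ → Finset ℕ, (∀ i < K, A i ⊆ range b) → (b : ℝ) ^ K ≤ Real.exp (c * K) * NA K A →
        ((∃ d ∈ A 0, (G m n t d).natAbs.Coprime b) → (∃ d ∈ A (K - 1), d ≠ 0) →
          κ * NA K A * WG (G m n t) (b ^ K) ≤
            ND b K A {q | (1 < q ∧ (n - (n - m * q - t)) / m = q ∧ 1 < n - m * q - t) ∧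
              q ∈ Alm (G m n t) r (b ^ K)}) ∧
        (ND b K A {q | q.Prime ∧ (q ^ 2 - 2).Prime ∧ (n - m * q - t).Prime} : ℝ) ≤
          C * NA K A * WG (G m n t) (b ^ K) := by
  constructor
  · rintro m n (⟨rfl, hn⟩ | rfl)
    · refine ⟨0, by norm_num, adm_of (Or.inl rfl) ?_⟩
      exact hn.add_one
    · rcases Nat.even_or_odd n with hn | hn
      · refine ⟨1, by norm_num, adm_of (Or.inr rfl) ?_⟩
        have : n + 2 + 1 = n + 3 := by omega
        rw [this]
        exact hn.add_odd (by decide)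
      · refine ⟨0, by norm_num, adm_of (Or.inr rfl) ?_⟩
        have : n + 2 + 0 = n + 2 := by omega
        rw [this]
        exact hn.add_even (by decide)
  obtain ⟨c, hc, r₀, hr₀, h⟩ := Pool.Agent.Y816.PD.uni_top 4 (D + 3) (by norm_num)
  refine ⟨c, hc, r₀, hr₀, fun r hr b hb => ?_⟩
  have h2r : 2 ≤ r := hr₀.trans hr
  obtain ⟨κ, C₁, hκ, hC, h1⟩ := h r hr b hb
  refine ⟨κ, C₁, hκ, hC, ?_⟩
  filter_upwards [h1, eventually_ge_atTop 3] with K hK hK3 m n t hm htm hadm hmn hnD A hA hprod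
  have hmq : ∀ q, q < b ^ K → m * q + t + b ^ K ≤ n := by
    intro q hq
    have : m * q ≤ m * b ^ K := Nat.mul_le_mul_left _ hq.le
    have e : (m + 1) * b ^ K = m * b ^ K + b ^ K := by ring
    omega
  have hcast : ∀ q, q < b ^ K → ((n - m * q - t : ℕ) : ℤ) = (n : ℤ) - m * q - t := by
    intro q hq
    have := hmq q hq
    have e1 : t ≤ n - m * q := by omega
    have e2 : m * q ≤ n := by omega
    push_cast [Nat.cast_sub e1, Nat.cast_sub e2]
    ring
  have hpoly : ∃ P : ℤ[X], P.natDegree ≤ 4 ∧ ∀ k : ℕ, P.eval (k : ℤ) = G m n t k := by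
    refine ⟨X * (X ^ 2 - C 2) * (C (n : ℤ) - C (m : ℤ) * X - C (t : ℤ)), ?_, fun k => ?_⟩
    · compute_degree
    · unfold G
      simp only [eval_mul, eval_sub, eval_pow, eval_X, eval_C]
  have hbK : 2 ≤ b ^ K := hb.trans (Nat.le_self_pow (by omega) b)
  have hsize : ∀ k : ℕ, k < b ^ K → (G m n t k).natAbs ≤ b ^ ((D + 3) * K) := by
    intro k hk
    unfold G
    rw [← hcast k hk, Int.natAbs_mul, Int.natAbs_mul, Int.natAbs_natCast, Int.natAbs_natCast]
    have f1 : ((k : ℤ) ^ 2 - 2).natAbs ≤ b ^ K * b ^ K := by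
      obtain ⟨y, hy⟩ : ∃ y, y = b ^ K := ⟨_, rfl⟩
      rw [← hy] at hk hbK ⊢
      have g1 : (0 : ℤ) ≤ (k : ℤ) ^ 2 := sq_nonneg _
      have g2 : (k : ℤ) ^ 2 ≤ y * y := by
        have : k ^ 2 ≤ y * y := by nlinarith
        exact_mod_cast this
      have g3 : (4 : ℤ) ≤ y * y := by
        have : 4 ≤ y * y := by nlinarith
        exact_mod_cast this
      have g4 : (((k : ℤ) ^ 2 - 2).natAbs : ℤ) ≤ ((y * y : ℕ) : ℤ) := by
        rw [Int.natCast_natAbs, abs_le]
        push_cast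
        constructor
        · linarith
        · linarith
      exact_mod_cast g4
    calc k * ((k : ℤ) ^ 2 - 2).natAbs * (n - m * k - t) ≤ b ^ K * (b ^ K * b ^ K) * b ^ (D * K) :=
          Nat.mul_le_mul (Nat.mul_le_mul hk.le f1) (by omega)
      _ = b ^ ((D + 3) * K) := by
          rw [← pow_add, ← pow_add, ← pow_add]
          congr 1
          ring
  obtain ⟨h4, h5⟩ := hK (G m n t) hpoly hadm hsize A hA hprod
  have hbig : 1 < b ^ (K - 1) := Nat.one_lt_pow (by omega) (by omega)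
  constructor
  · intro hd htop
    refine (h4 hd htop).trans ?_
    apply Nat.cast_le.2
    apply Pool.Agent.Y816.PD.ND_mono'
    intro k hkK hk
    have h6 := hmq k hkK
    refine ⟨⟨lt_of_lt_of_le hbig hk.1, ?_, by omega⟩, hk.2⟩
    have h7 : n - (n - m * k - t) = t + m * k := by omega
    rw [h7, Nat.add_mul_div_left _ _ (by omega), Nat.div_eq_of_lt htm, zero_add]
  · refine le_trans ?_ h5
    apply Nat.cast_le.2
    apply Pool.Agent.Y816.PD.ND_mono'
    intro k hkK hk
    obtain ⟨k1, k2, k3⟩ := hk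
    intro p hp hd
    have hpz := Nat.prime_iff_prime_int.1 hp
    refine Pool.Agent.Y816.PD.lt_pow_of_le hp ?_ h2r
    unfold G at hd
    rw [← hcast k hkK] at hd
    have hk2 := k1.two_le
    have h6 := hmq k hkK
    rcases hpz.dvd_or_dvd hd with hd | hd
    · rcases hpz.dvd_or_dvd hd with hd | hd
      · exact ((Nat.prime_dvd_prime_iff_eq hp k1).1 (Int.natCast_dvd_natCast.1 hd)).ge
      · have e : ((k : ℤ) ^ 2 - 2) = ((k ^ 2 - 2 : ℕ) : ℤ) := by
          have : 2 ≤ k ^ 2 := by nlinarith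
          push_cast [Nat.cast_sub this]
          ring
        rw [e] at hd
        rw [(Nat.prime_dvd_prime_iff_eq hp k2).1 (Int.natCast_dvd_natCast.1 hd)]
        have : k + 2 ≤ k ^ 2 := by nlinarith
        omega
    · rw [(Nat.prime_dvd_prime_iff_eq hp k3).1 (Int.natCast_dvd_natCast.1 hd)]
      omega

end Pool.Agent.Results.MP_4011c3_nt.RestrictedDigits
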